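import Pool.Agent.Z125.Rep
import Pool.Agent.Z700.Defs3

set_option autoImplicit false

/-!
# The representations of `9 m` by `b² + 14 y²`: existence and the flips for two inert primes

`t_SOLA2`, `t_SOLB2`. Inert primes `p` satisfy `3 p = u² + 14 v²`; products of two inert primes are
represented by both forms `x² + 14 y²` and `2 x² + 7 y²`, and exactly one of the representations
defines the ideal which divides `b + y √-14`.
-/

namespace Pool.Agent.Z421

open Finset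
open Pool.Agent.Z700 (pr Sol3)
open Pool.Agent.Z701 (Sp Nr spl inr Gd S_SOLA2 S_SOLB2)
open Pool.Agent.Z125 (jac_congr jac_ne_zero jac_zero jac_sq jac_neg_one red56 dvd_pr)

theorem sqm7 (x : ℤ) : x ^ 2 % 7 = 0 ∨ x ^ 2 % 7 = 1 ∨ x ^ 2 % 7 = 2 ∨ x ^ 2 % 7 = 4 := by
  have h : x % 7 = 0 ∨ x % 7 = 1 ∨ x % 7 = 2 ∨ x % 7 = 3 ∨ x % 7 = 4 ∨ x % 7 = 5 ∨ x % 7 = 6 := by
    omega
  rcases h with h | h | h | h | h | h | h <;> simp [pow_two, Int.mul_emod, h]

/-- `-14` is a square modulo the primes of the family -/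
theorem sq14 {p : ℕ} (hF : Sp p ∨ Nr p) : ∃ t : ℤ, (p : ℤ) ∣ t ^ 2 + 14 := by
  have hp : p.Prime := by rcases hF with h | h <;> exact h.1
  haveI : Fact p.Prime := ⟨hp⟩
  have h4 : p % 4 = 1 := by rcases hF with h | h <;> have := h.2.1 <;> omega
  have hodd : Odd p := Nat.odd_iff.2 (by omega)
  have e1 : jacobiSym (-1) p = 1 := jac_neg_one h4
  have h1 : jacobiSym ((7 : ℕ) : ℤ) p = jacobiSym (p : ℤ) 7 :=
    jacobiSym.quadratic_reciprocity_one_mod_four' (by decide) (by omega)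
  have h2 : jacobiSym (p : ℤ) 7 = jacobiSym ((p % 7 : ℕ) : ℤ) 7 := by
    rw [jacobiSym.mod_left (p : ℤ) 7]
    push_cast
    rfl
  have e3 : jacobiSym (-14) p = 1 := by
    have e : (-14 : ℤ) = -1 * 2 * ((7 : ℕ) : ℤ) := by norm_num
    rw [e, jacobiSym.mul_left, jacobiSym.mul_left, e1, h1, h2]
    rcases hF with h | h
    · have e2 : jacobiSym 2 p = 1 := by
        rw [jacobiSym.at_two hodd, ZMod.χ₈_nat_eq_if_mod_eight]
        have := h.2.1
        simp [this]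
        omega
      rw [e2]
      rcases h.2.2 with h | h | h <;> rw [h] <;> norm_num [jacobiSym]
    · have e2 : jacobiSym 2 p = -1 := by
        rw [jacobiSym.at_two hodd, ZMod.χ₈_nat_eq_if_mod_eight]
        have := h.2.1
        simp [this]
        omega
      rw [e2]
      rcases h.2.2 with h | h | h <;> rw [h] <;> norm_num [jacobiSym]
  obtain ⟨s, hs⟩ := ZMod.isSquare_of_jacobiSym_eq_one e3
  refine ⟨(s.val : ℤ), ?_⟩
  rw [← ZMod.intCast_zmod_eq_zero_iff_dvd]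
  push_cast
  rw [ZMod.natCast_zmod_val]
  push_cast at hs
  linear_combination -hs

theorem rep_cases {p : ℕ} (hF : Sp p ∨ Nr p) : (∃ g f : ℤ, (p : ℤ) = g ^ 2 + 14 * f ^ 2) ∨
    (∃ h k : ℤ, (p : ℤ) = 2 * h ^ 2 + 7 * k ^ 2) ∨ ∃ u v : ℤ, 3 * (p : ℤ) = u ^ 2 + 14 * v ^ 2 := by
  obtain ⟨t, c, hc⟩ := sq14 hF
  have hp : p.Prime := by rcases hF with h | h <;> exact h.1
  have hp0 : (0 : ℤ) < p := by exact_mod_cast hp.pos
  have hc0 : 0 < c := by
    by_contra h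
    push Not at h
    nlinarith [sq_nonneg t]
  obtain ⟨A, B, C, x, y, z, w, h1, h2, h3, h4⟩ := red56 (p + c.toNat) p t c (by
    push_cast
    rw [Int.toNat_of_nonneg hc0.le]) hp0 hc0 (by linear_combination -hc)
  rcases h1 with ⟨rfl, rfl, rfl⟩ | ⟨rfl, rfl, rfl⟩ | ⟨rfl, rfl, rfl⟩
  · exact Or.inl ⟨x, y, by linear_combination h2⟩
  · exact Or.inr (Or.inl ⟨x, y, by linear_combination h2⟩)
  · exact Or.inr (Or.inr ⟨3 * x + y, y, by linear_combination 3 * h2⟩)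

theorem sp_rep {p : ℕ} (hF : Sp p) : (∃ g f : ℤ, (p : ℤ) = g ^ 2 + 14 * f ^ 2) ∨
    (∃ h k : ℤ, (p : ℤ) = 2 * h ^ 2 + 7 * k ^ 2) := by
  rcases rep_cases (Or.inl hF) with h | h | ⟨u, v, h⟩
  · exact Or.inl h
  · exact Or.inr h
  · exfalso
    have h7 := hF.2.2
    have := sqm7 u
    omega

theorem nr_rep {p : ℕ} (hF : Nr p) : ∃ v s : ℤ, 3 * (p : ℤ) = (v + 3 * s) ^ 2 + 14 * v ^ 2 ∧
    ¬ (3 : ℤ) ∣ v := by
  have h7 := hF.2.2
  obtain ⟨u, v, h⟩ : ∃ u v : ℤ, 3 * (p : ℤ) = u ^ 2 + 14 * v ^ 2 := by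
    rcases rep_cases (Or.inr hF) with ⟨g, f, h⟩ | ⟨h, k, h'⟩ | h
    · exfalso
      have := sqm7 g
      omega
    · exfalso
      have := sqm7 h
      omega
    · exact h
  have hv : ¬ (3 : ℤ) ∣ v := by
    rintro ⟨k, rfl⟩
    have h3 : (3 : ℤ) ∣ u ^ 2 := ⟨p - 42 * k ^ 2, by linear_combination -h⟩
    obtain ⟨l, rfl⟩ := Int.prime_three.dvd_of_dvd_pow h3
    have h4 : (3 : ℤ) ∣ p := ⟨l ^ 2 + 14 * k ^ 2, by linarith⟩
    have h5 : 3 ∣ p := by exact_mod_cast h4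
    have h6 := (Nat.prime_dvd_prime_iff_eq Nat.prime_three hF.1).1 h5
    have := hF.2.1
    omega
  have h3 : (3 : ℤ) ∣ (u - v) * (u + v) := ⟨p - 5 * v ^ 2, by linear_combination -h⟩
  rcases Int.prime_three.dvd_or_dvd h3 with ⟨s, hs⟩ | ⟨s, hs⟩
  · refine ⟨v, s, ?_, hv⟩
    have : v + 3 * s = u := by linarith
    rw [this]; exact h
  · refine ⟨-v, s, ?_, fun h' => hv ((dvd_neg).1 h')⟩
    have : -v + 3 * s = u := by linarith
    rw [this, h]; ring

/-- products of two inert primes -/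
theorem nn_rep {p p' : ℕ} (hp : Nr p) (hp' : Nr p') :
    (∃ g f : ℤ, (p : ℤ) * p' = g ^ 2 + 14 * f ^ 2) ∧
    (∃ h k : ℤ, (p : ℤ) * p' = 2 * h ^ 2 + 7 * k ^ 2) ∧
    ∃ X Y : ℤ, 9 * ((p : ℤ) * p') = X ^ 2 + 14 * Y ^ 2 ∧ ¬ (3 : ℤ) ∣ X := by
  obtain ⟨v, s, h1, h2⟩ := nr_rep hp
  obtain ⟨v', s', h1', h2'⟩ := nr_rep hp'
  obtain ⟨X, hX⟩ : ∃ X, X = (v + 3 * s) * (v' + 3 * s') - 14 * v * v' := ⟨_, rfl⟩
  obtain ⟨Y, hY⟩ : ∃ Y, Y = (v + 3 * s) * v' + (v' + 3 * s') * v := ⟨_, rfl⟩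
  have hXY : 9 * ((p : ℤ) * p') = X ^ 2 + 14 * Y ^ 2 := by
    rw [hX, hY]
    linear_combination (3 * (p' : ℤ)) * h1 + ((v + 3 * s) ^ 2 + 14 * v ^ 2) * h1'
  have hX3 : ¬ (3 : ℤ) ∣ X := by
    intro h
    have h3 : (3 : ℤ) ∣ v * v' := by
      obtain ⟨k, hk⟩ := h
      refine ⟨v * s' + s * v' + 3 * s * s' - k - 4 * v * v', ?_⟩
      rw [hX] at hk
      linarith
    rcases Int.prime_three.dvd_or_dvd h3 with h4 | h4
    · exact h2 h4
    · exact h2' h4
  refine ⟨⟨5 * v * v' + v * s' + s * v' + 3 * s * s', s' * v - s * v', ?_⟩, ?_, X, Y, hXY, hX3⟩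
  · have e : 9 * ((p : ℤ) * p') = 9 * ((5 * v * v' + v * s' + s * v' + 3 * s * s') ^ 2 +
        14 * (s' * v - s * v') ^ 2) := by
      linear_combination (3 * (p' : ℤ)) * h1 + ((v + 3 * s) ^ 2 + 14 * v ^ 2) * h1'
    exact mul_left_cancel₀ (by norm_num) e
  · have h9 : (9 : ℤ) ∣ (X - 2 * Y) * (X + 2 * Y) :=
      ⟨(p : ℤ) * p' - 2 * Y ^ 2, by linear_combination -hXY⟩
    have hcase : (9 : ℤ) ∣ X - 2 * Y ∨ (9 : ℤ) ∣ X + 2 * Y := by
      by_cases h3 : (3 : ℤ) ∣ X - 2 * Y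
      · have h4 : ¬ (3 : ℤ) ∣ X + 2 * Y := by
          intro h4
          apply hX3
          have : (3 : ℤ) ∣ (X - 2 * Y) + (X + 2 * Y) := dvd_add h3 h4
          have e : (X - 2 * Y) + (X + 2 * Y) = 2 * X := by ring
          rw [e] at this
          rcases Int.prime_three.dvd_or_dvd this with h | h
          · norm_num at h
          · exact h
        left
        have hc : IsCoprime (9 : ℤ) (X + 2 * Y) := by
          have : IsCoprime (3 : ℤ) (X + 2 * Y) := (Int.prime_three.coprime_iff_not_dvd).2 h4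
          have := this.pow_left (m := 2)
          norm_num at this
          exact this
        exact hc.dvd_of_dvd_mul_right h9
      · right
        have hc : IsCoprime (9 : ℤ) (X - 2 * Y) := by
          have : IsCoprime (3 : ℤ) (X - 2 * Y) := (Int.prime_three.coprime_iff_not_dvd).2 h3
          have := this.pow_left (m := 2)
          norm_num at this
          exact this
        exact hc.dvd_of_dvd_mul_left h9
    rcases hcase with ⟨k, hk⟩ | ⟨k, hk⟩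
    · refine ⟨Y + k, k, ?_⟩
      have hx : X = 2 * Y + 9 * k := by linarith
      rw [hx] at hXY
      linarith
    · refine ⟨Y - k, k, ?_⟩
      have hx : X = -2 * Y + 9 * k := by linarith
      rw [hx] at hXY
      linarith

/-- products of split primes -/
theorem split_rep (S : Finset ℕ) (hS : ∀ p ∈ S, Sp p) :
    (∃ g f : ℤ, (pr S : ℤ) = g ^ 2 + 14 * f ^ 2) ∨
    (∃ h k : ℤ, (pr S : ℤ) = 2 * h ^ 2 + 7 * k ^ 2) := by
  classical
  induction S using Finset.induction_on with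
  | empty => left; exact ⟨1, 0, by simp [pr]⟩
  | insert p S hp ih =>
    have h1 : (pr (insert p S) : ℤ) = p * pr S := by
      have : pr (insert p S) = p * pr S := Finset.prod_insert hp
      rw [this]; push_cast; ring
    rw [h1]
    rcases sp_rep (hS p (mem_insert_self _ _)) with ⟨g, f, h⟩ | ⟨g, f, h⟩ <;>
      rcases ih fun q hq => hS q (mem_insert_of_mem hq) with ⟨g', f', h'⟩ | ⟨g', f', h'⟩
    · exact Or.inl ⟨g * g' - 14 * f * f', g * f' + f * g', by rw [h, h']; ring⟩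
    · exact Or.inr ⟨g' * g - 7 * f' * f, 2 * g' * f + f' * g, by rw [h, h']; ring⟩
    · exact Or.inr ⟨g * g' - 7 * f * f', 2 * g * f' + f * g', by rw [h, h']; ring⟩
    · exact Or.inl ⟨2 * g * g' - 7 * f * f', g * f' + f * g', by rw [h, h']; ring⟩

theorem mkSol {P : Finset ℕ} {b y : ℤ} (h : 9 * (pr P : ℤ) = b ^ 2 + 14 * y ^ 2)
    (hodd : pr P % 2 = 1) (h3 : ¬ (3 : ℤ) ∣ b) : (Sol3 P).Nonempty := by
  have hb : b % 2 = 1 := by
    by_contra hc
    obtain ⟨k, hk⟩ : ∃ k, b = 2 * k := ⟨b / 2, by omega⟩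
    rw [hk] at h
    have : (9 : ℤ) * pr P = 2 * (2 * k ^ 2 + 7 * y ^ 2) := by rw [h]; ring
    omega
  obtain ⟨e, he, hb4⟩ : ∃ e : ℤ, (e = 1 ∨ e = -1) ∧ (e * b) % 4 = 1 := by
    have : b % 4 = 1 ∨ b % 4 = 3 := by omega
    rcases this with h | h
    · exact ⟨1, Or.inl rfl, by omega⟩
    · exact ⟨-1, Or.inr rfl, by omega⟩
  have he2 : e ^ 2 = 1 := by rcases he with rfl | rfl <;> norm_num
  have h4 : (3 : ℤ) ∣ (y - e * b) * (-y - e * b) := by
    refine ⟨3 * pr P - 5 * y ^ 2, ?_⟩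
    linear_combination b ^ 2 * he2 - h
  have hb3 : ¬ (3 : ℤ) ∣ e * b := by
    intro h5
    apply h3
    have : b = e * (e * b) := by linear_combination -b * he2
    rw [this]
    exact Dvd.dvd.mul_left h5 _
  rcases Int.prime_three.dvd_or_dvd h4 with h5 | h5
  · refine ⟨(e * b, y), ?_, hb4, hb3, h5⟩
    simp only
    linear_combination h + b ^ 2 * (-he2)
  · refine ⟨(e * b, -y), ?_, hb4, hb3, h5⟩
    simp only
    linear_combination h + b ^ 2 * (-he2)

theorem gd_prime {P : Finset ℕ} (hP : ∀ p ∈ P, Sp p ∨ Nr p) {r : ℕ} (hr : r ∈ P) :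
    r.Prime ∧ r % 4 = 1 ∧ r ≠ 2 ∧ r ≠ 3 ∧ r ≠ 7 := by
  have h : r.Prime ∧ r % 4 = 1 := by
    rcases hP r hr with h | h
    · exact ⟨h.1, by have := h.2.1; omega⟩
    · exact ⟨h.1, by have := h.2.1; omega⟩
  exact ⟨h.1, h.2, by omega, by omega, by omega⟩

theorem pr_split {P : Finset ℕ} (hP : ∀ p ∈ P, Sp p ∨ Nr p) : pr P = pr (spl P) * pr (inr P) := by
  have h1 : inr P = P.filter fun p => ¬ p % 8 = 1 := by
    unfold inr
    refine filter_congr fun p hp => ?_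
    rcases hP p hp with h | h
    · have := h.2.1; omega
    · have := h.2.1; omega
  rw [h1]
  exact (prod_filter_mul_prod_filter_not P _ _).symm

theorem pr_mod8 {S : Finset ℕ} (hS : ∀ p ∈ S, p % 8 = 1) : pr S % 8 = 1 := by
  classical
  induction S using Finset.induction_on with
  | empty => simp [pr]
  | insert p S hp ih =>
    have h1 : pr (insert p S) = p * pr S := Finset.prod_insert hp
    have h2 := ih fun q hq => hS q (mem_insert_of_mem hq)
    have h3 := hS p (mem_insert_self _ _)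
    rw [h1, Nat.mul_mod, h2, h3]

theorem pr_mod8' {S : Finset ℕ} (hS : ∀ p ∈ S, p % 8 = 5) :
    pr S % 8 = if Even S.card then 1 else 5 := by
  classical
  induction S using Finset.induction_on with
  | empty => simp [pr]
  | insert p S hp ih =>
    have h1 : pr (insert p S) = p * pr S := Finset.prod_insert hp
    have h2 := ih fun q hq => hS q (mem_insert_of_mem hq)
    have h3 := hS p (mem_insert_self _ _)
    rw [h1, Nat.mul_mod, h2, h3, card_insert_of_notMem hp]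
    by_cases h : Even S.card
    · rw [if_pos h, if_neg (by rw [Nat.not_even_iff_odd]; exact h.add_one)]
    · rw [if_neg h, if_pos (by exact (Nat.not_even_iff_odd.1 h).add_one)]

theorem gd_mod8 {P : Finset ℕ} (hP : Gd P) : pr P % 8 = 1 := by
  rw [pr_split hP.1, Nat.mul_mod, pr_mod8 (S := spl P) fun p hp => (mem_filter.1 hp).2,
    pr_mod8' (S := inr P) fun p hp => (mem_filter.1 hp).2, if_pos hP.2]

theorem mem_spl {P : Finset ℕ} (hP : ∀ p ∈ P, Sp p ∨ Nr p) {p : ℕ} (hp : p ∈ spl P) :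
    p ∈ P ∧ Sp p := by
  obtain ⟨h1, h2⟩ := mem_filter.1 hp
  refine ⟨h1, (hP p h1).resolve_right fun h => ?_⟩
  have := h.2.1
  omega

theorem mem_inr {P : Finset ℕ} (hP : ∀ p ∈ P, Sp p ∨ Nr p) {p : ℕ} (hp : p ∈ inr P) :
    p ∈ P ∧ Nr p := by
  obtain ⟨h1, h2⟩ := mem_filter.1 hp
  refine ⟨h1, (hP p h1).resolve_left fun h => ?_⟩
  have := h.2.1
  omega

theorem mod3_sq {x : ℤ} (h : ¬ (3 : ℤ) ∣ x) : x ^ 2 % 3 = 1 := by
  have h1 : x % 3 = 1 ∨ x % 3 = 2 := by omega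
  rcases h1 with h1 | h1 <;> simp [pow_two, Int.mul_emod, h1]

theorem t_SOLA2 : S_SOLA2 := by
  intro P hP hc
  obtain ⟨p, p', hne, hpp⟩ := card_eq_two.1 hc
  have hp : Nr p := (mem_inr hP.1 (by rw [hpp]; simp)).2
  have hp' : Nr p' := (mem_inr hP.1 (by rw [hpp]; simp)).2
  have h8 := gd_mod8 hP
  have hpr : (pr P : ℤ) = pr (spl P) * ((p : ℤ) * p') := by
    rw [pr_split hP.1, hpp]
    have : pr {p, p'} = p * p' := prod_pair hne
    rw [this]
    push_cast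
    ring
  obtain ⟨⟨g, f, h1⟩, -, ⟨X, Y, h3, h4⟩⟩ := nn_rep hp hp'
  have hN3 : ¬ (3 : ℤ) ∣ (p : ℤ) * p' := by
    intro h
    rcases Int.prime_three.dvd_or_dvd h with h | h
    · have h5 : 3 ∣ p := by exact_mod_cast h
      have h6 := (Nat.prime_dvd_prime_iff_eq Nat.prime_three hp.1).1 h5
      have := hp.2.1
      omega
    · have h5 : 3 ∣ p' := by exact_mod_cast h
      have h6 := (Nat.prime_dvd_prime_iff_eq Nat.prime_three hp'.1).1 h5
      have := hp'.2.1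
      omega
  have hM3 : ¬ (3 : ℤ) ∣ (pr (spl P) : ℤ) := by
    intro h
    have h5 : 3 ∣ pr (spl P) := by exact_mod_cast h
    rw [pr, Nat.prime_three.prime.dvd_finsetProd_iff] at h5
    obtain ⟨q, hq, h6⟩ := h5
    have hq' := (mem_spl hP.1 hq).2
    have h7 := (Nat.prime_dvd_prime_iff_eq Nat.prime_three hq'.1).1 h6
    have := hq'.2.1
    omega
  rcases split_rep (spl P) fun q hq => (mem_spl hP.1 hq).2 with ⟨x, y, h2⟩ | ⟨x, y, h2⟩
  · refine mkSol (b := X * x - 14 * Y * y) (y := X * y + Y * x) ?_ (by omega) ?_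
    · rw [hpr, h2]
      linear_combination (x ^ 2 + 14 * y ^ 2) * h3
    · intro h5
      obtain ⟨k, hk⟩ := h5
      have hY3 : ¬ (3 : ℤ) ∣ Y := by
        rintro ⟨l, rfl⟩
        have : (3 : ℤ) ∣ X ^ 2 := ⟨3 * (p * p') - 42 * l ^ 2, by linear_combination -h3⟩
        exact h4 (Int.prime_three.dvd_of_dvd_pow this)
      by_cases hx : (3 : ℤ) ∣ x
      · by_cases hy : (3 : ℤ) ∣ y
        · apply hM3
          rw [h2]
          exact dvd_add (dvd_pow hx two_ne_zero) (Dvd.dvd.mul_left (dvd_pow hy two_ne_zero) _)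
        · have : (3 : ℤ) ∣ Y * y := by
            obtain ⟨l, rfl⟩ := hx
            exact ⟨5 * Y * y + k - X * l, by linarith⟩
          rcases Int.prime_three.dvd_or_dvd this with h | h
          · exact hY3 h
          · exact hy h
      · by_cases hy : (3 : ℤ) ∣ y
        · have : (3 : ℤ) ∣ X * x := by
            obtain ⟨l, rfl⟩ := hy
            exact ⟨k + 14 * Y * l, by linarith⟩
          rcases Int.prime_three.dvd_or_dvd this with h | h
          · exact h4 h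
          · exact hx h
        · apply hM3
          have e1 := mod3_sq hx
          have e2 := mod3_sq hy
          rw [h2]
          omega
  · refine mkSol (b := (2 * x - 7 * y) * g - 14 * (x + y) * f)
      (y := (2 * x - 7 * y) * f + (x + y) * g) ?_ (by omega) ?_
    · rw [hpr, h1, h2]
      ring
    · intro h5
      obtain ⟨k, hk⟩ := h5
      have hxy : ∀ x y : ℤ, ¬ (3 : ℤ) ∣ 2 * x ^ 2 + 7 * y ^ 2 → ¬ (3 : ℤ) ∣ x + y := by
        intro x y h h'
        apply h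
        obtain ⟨l, hl⟩ := h'
        have : y = 3 * l - x := by linarith
        rw [this]
        exact ⟨3 * x ^ 2 - 14 * l * x + 21 * l ^ 2, by ring⟩
      have a1 : ¬ (3 : ℤ) ∣ x + y := hxy x y (by rw [← h2]; exact hM3)
      have : (3 : ℤ) ∣ (x + y) * (g - f) := by
        refine ⟨(x - 2 * y) * g - 5 * (x + y) * f - k, ?_⟩
        linear_combination -hk
      rcases Int.prime_three.dvd_or_dvd this with h | h
      · exact a1 h
      · apply hN3
        rw [h1]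
        obtain ⟨l, hl⟩ := h
        have : g = 3 * l + f := by linarith
        rw [this]
        exact ⟨5 * f ^ 2 + 2 * l * f + 3 * l ^ 2, by ring⟩

/-- The two representations of a product of two primes define different ideals. -/
theorem excl {N g f h k : ℤ} (hN : 0 < N) (h1 : N = g ^ 2 + 14 * f ^ 2)
    (h2 : N = 2 * h ^ 2 + 7 * k ^ 2) (h3 : N ∣ g * k - 2 * h * f) : False := by
  obtain ⟨V, hV⟩ := h3
  have h4 : (2 * g * h + 14 * f * k) ^ 2 + 14 * (g * k - 2 * h * f) ^ 2 = 2 * N ^ 2 := by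
    have : (2 : ℤ) * N ^ 2 = (g ^ 2 + 14 * f ^ 2) * (2 * (2 * h ^ 2 + 7 * k ^ 2)) := by
      rw [← h1, ← h2]; ring
    rw [this]; ring
  rw [hV] at h4
  have h5 : N ^ 2 ∣ (2 * g * h + 14 * f * k) ^ 2 := ⟨2 - 14 * V ^ 2, by linear_combination h4⟩
  obtain ⟨U, hU⟩ := (Int.pow_dvd_pow_iff two_ne_zero).1 h5
  rw [hU] at h4
  have h6 : N ^ 2 * (U ^ 2 + 14 * V ^ 2) = N ^ 2 * 2 := by linear_combination h4
  have h7 : U ^ 2 + 14 * V ^ 2 = 2 := mul_left_cancel₀ (pow_ne_zero 2 hN.ne') h6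
  have h8 : V = 0 := by
    by_contra hV0
    have : 1 ≤ V ^ 2 := by
      have := Int.one_le_abs hV0
      nlinarith [sq_abs V]
    nlinarith [sq_nonneg U]
  rw [h8] at h7
  have h9 : U ^ 2 = 2 := by linarith
  have h10 : U < 2 := by nlinarith
  have h11 : -2 < U := by nlinarith
  interval_cases U <;> omega

section flip

variable {P : Finset ℕ} (hP : ∀ p ∈ P, Sp p ∨ Nr p)

include hP in
theorem sq_not {r : ℕ} (hr : r ∈ P) : ¬ (r : ℤ) ^ 2 ∣ 9 * (pr P : ℤ) := by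
  classical
  intro h
  obtain ⟨hp, -, -, h3, -⟩ := gd_prime hP hr
  have h1 : r ^ 2 ∣ 9 * pr P := by exact_mod_cast h
  have hc : Nat.Coprime (r ^ 2) 9 := by
    apply Nat.Coprime.pow_left
    have : (9 : ℕ) = 3 ^ 2 := by norm_num
    rw [this]
    apply Nat.Coprime.pow_right
    exact (Nat.coprime_primes hp Nat.prime_three).2 h3
  have h2 : r ^ 2 ∣ pr P := hc.dvd_of_dvd_mul_left h1
  have h4 : pr P = r * pr (P.erase r) := (mul_prod_erase P (fun x => x) hr).symm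
  rw [h4, pow_two] at h2
  have h5 := Nat.dvd_of_mul_dvd_mul_left hp.pos h2
  rw [pr, hp.prime.dvd_finsetProd_iff] at h5
  obtain ⟨q, hq, h6⟩ := h5
  rw [mem_erase] at hq
  exact hq.1 ((Nat.prime_dvd_prime_iff_eq hp (gd_prime hP hq.2).1).1 h6).symm

include hP in
theorem nsd {r : ℕ} (hr : r ∈ P) {x z : ℤ} (h : 9 * (pr P : ℤ) = x ^ 2 + 14 * z ^ 2) :
    ¬ (r : ℤ) ∣ z := by
  intro hz
  have hpp := Nat.prime_iff_prime_int.1 (gd_prime hP hr).1
  have h9 : (r : ℤ) ∣ 9 * (pr P : ℤ) := Dvd.dvd.mul_left (by exact_mod_cast dvd_pr hr) _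
  have hx : (r : ℤ) ∣ x := by
    apply hpp.dvd_of_dvd_pow (n := 2)
    have : x ^ 2 = 9 * (pr P : ℤ) - 14 * z ^ 2 := by rw [h]; ring
    rw [this]
    exact dvd_sub h9 (Dvd.dvd.mul_left (dvd_pow hz two_ne_zero) _)
  apply sq_not hP hr
  rw [h]
  exact dvd_add (pow_dvd_pow_of_dvd hx 2) (Dvd.dvd.mul_left (pow_dvd_pow_of_dvd hz 2) _)

variable {p p' : ℕ} (hp : p ∈ P) (hp' : p' ∈ P) (hne : p ≠ p') {b y : ℤ}
  (hq : 9 * (pr P : ℤ) = b ^ 2 + 14 * y ^ 2)

include hP hp hp' hne in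
theorem two_dvd {z : ℤ} (h1 : (p : ℤ) ∣ z) (h2 : (p' : ℤ) ∣ z) : (p : ℤ) * p' ∣ z := by
  have hc : IsCoprime (p : ℤ) (p' : ℤ) :=
    Nat.isCoprime_iff_coprime.2 ((Nat.coprime_primes (gd_prime hP hp).1 (gd_prime hP hp').1).2 hne)
  exact hc.mul_dvd h1 h2

include hP hp hp' hne hq in
/-- one of the two representations of `p p'` defines the ideal dividing `b + y √-14` -/
theorem good {g f h k : ℤ} (h1 : (p : ℤ) * p' = g ^ 2 + 14 * f ^ 2)
    (h2 : (p : ℤ) * p' = 2 * h ^ 2 + 7 * k ^ 2) :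
    (∃ f : ℤ, (p : ℤ) * p' = g ^ 2 + 14 * f ^ 2 ∧ (p : ℤ) * p' ∣ y * g - b * f) ∨
    ∃ k : ℤ, (p : ℤ) * p' = 2 * h ^ 2 + 7 * k ^ 2 ∧ (p : ℤ) * p' ∣ 2 * h * y - b * k := by
  have hpp := Nat.prime_iff_prime_int.1 (gd_prime hP hp).1
  have hpp' := Nat.prime_iff_prime_int.1 (gd_prime hP hp').1
  have hm : (p : ℤ) ∣ (pr P : ℤ) := by exact_mod_cast dvd_pr hp
  have hm' : (p' : ℤ) ∣ (pr P : ℤ) := by exact_mod_cast dvd_pr hp'
  have key1 : ∀ r : ℤ, Prime r → r ∣ (pr P : ℤ) → r ∣ (p : ℤ) * p' →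
      ∃ e : ℤ, (e = 1 ∨ e = -1) ∧ r ∣ y * g - b * (e * f) := by
    intro r hr hrm hrN
    have : r ∣ (y * g - b * (1 * f)) * (y * g - b * (-1 * f)) := by
      have e : (y * g - b * (1 * f)) * (y * g - b * (-1 * f)) =
          y ^ 2 * ((p : ℤ) * p') - f ^ 2 * 9 * (pr P : ℤ) := by
        linear_combination -(y ^ 2) * h1 + f ^ 2 * hq
      rw [e]
      exact dvd_sub (Dvd.dvd.mul_left hrN _) (Dvd.dvd.mul_left hrm _)
    rcases hr.dvd_or_dvd this with h | h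
    · exact ⟨1, Or.inl rfl, h⟩
    · exact ⟨-1, Or.inr rfl, h⟩
  have key2 : ∀ r : ℤ, Prime r → r ∣ (pr P : ℤ) → r ∣ (p : ℤ) * p' →
      ∃ e : ℤ, (e = 1 ∨ e = -1) ∧ r ∣ 2 * h * y - b * (e * k) := by
    intro r hr hrm hrN
    have : r ∣ (2 * h * y - b * (1 * k)) * (2 * h * y - b * (-1 * k)) := by
      have e : (2 * h * y - b * (1 * k)) * (2 * h * y - b * (-1 * k)) =
          2 * y ^ 2 * ((p : ℤ) * p') - k ^ 2 * 9 * (pr P : ℤ) := by
        linear_combination -(2 * y ^ 2) * h2 + k ^ 2 * hq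
      rw [e]
      exact dvd_sub (Dvd.dvd.mul_left hrN _) (Dvd.dvd.mul_left hrm _)
    rcases hr.dvd_or_dvd this with h | h
    · exact ⟨1, Or.inl rfl, h⟩
    · exact ⟨-1, Or.inr rfl, h⟩
  obtain ⟨e1, he1, d1⟩ := key1 p hpp hm (Dvd.intro _ rfl)
  obtain ⟨e2, he2, d2⟩ := key1 p' hpp' hm' (Dvd.intro_left _ rfl)
  obtain ⟨e3, he3, d3⟩ := key2 p hpp hm (Dvd.intro _ rfl)
  obtain ⟨e4, he4, d4⟩ := key2 p' hpp' hm' (Dvd.intro_left _ rfl)
  have sq : ∀ e : ℤ, (e = 1 ∨ e = -1) → e ^ 2 = 1 := by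
    rintro e (rfl | rfl) <;> norm_num
  by_cases h12 : e1 = e2
  · left
    refine ⟨e1 * f, ?_, two_dvd hP hp hp' hne d1 (by rw [h12]; exact d2)⟩
    linear_combination h1 - 14 * f ^ 2 * sq e1 he1
  by_cases h34 : e3 = e4
  · right
    refine ⟨e3 * k, ?_, two_dvd hP hp hp' hne d3 (by rw [h34]; exact d4)⟩
    linear_combination h2 - 7 * k ^ 2 * sq e3 he3
  exfalso
  have h12' : e2 = -e1 := by
    rcases he1 with rfl | rfl <;> rcases he2 with rfl | rfl <;> simp_all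
  have h34' : e4 = -e3 := by
    rcases he3 with rfl | rfl <;> rcases he4 with rfl | rfl <;> simp_all
  rw [h12'] at d2
  rw [h34'] at d4
  have hyp : ¬ (p : ℤ) ∣ y := nsd hP hp hq
  have hyp' : ¬ (p' : ℤ) ∣ y := nsd hP hp' hq
  have c1 : (p : ℤ) ∣ g * (e3 * k) - 2 * h * (e1 * f) := by
    have : (p : ℤ) ∣ y * (g * (e3 * k) - 2 * h * (e1 * f)) := by
      have e : y * (g * (e3 * k) - 2 * h * (e1 * f)) =
          (e3 * k) * (y * g - b * (e1 * f)) - (e1 * f) * (2 * h * y - b * (e3 * k)) := by ring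
      rw [e]
      exact dvd_sub (Dvd.dvd.mul_left d1 _) (Dvd.dvd.mul_left d3 _)
    exact (hpp.dvd_or_dvd this).resolve_left hyp
  have c2 : (p' : ℤ) ∣ g * (e3 * k) - 2 * h * (e1 * f) := by
    have : (p' : ℤ) ∣ y * (g * (e3 * k) - 2 * h * (e1 * f)) := by
      have e : y * (g * (e3 * k) - 2 * h * (e1 * f)) =
          (e3 * k) * (y * g - b * (-e1 * f)) - (e1 * f) * (2 * h * y - b * (-e3 * k)) := by ring
      rw [e]
      exact dvd_sub (Dvd.dvd.mul_left d2 _) (Dvd.dvd.mul_left d4 _)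
    exact (hpp'.dvd_or_dvd this).resolve_left hyp'
  have hN : (0 : ℤ) < (p : ℤ) * p' := by
    have a1 := (gd_prime hP hp).1.pos
    have a2 := (gd_prime hP hp').1.pos
    exact_mod_cast Nat.mul_pos a1 a2
  refine excl hN (g := g) (f := e1 * f) (h := h) (k := e3 * k) ?_ ?_
    (two_dvd hP hp hp' hne c1 c2)
  · linear_combination h1 - 14 * f ^ 2 * sq e1 he1
  · linear_combination h2 - 7 * k ^ 2 * sq e3 he3

include hP hp hp' hne hq in
theorem flip_ex {c d : ℤ} (hcd : c ^ 2 + 14 * d ^ 2 = ((p : ℤ) * p') ^ 2)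
    (hdiv : (p : ℤ) * p' ∣ y * c - b * d) (hpd : ¬ (p : ℤ) ∣ d) (hpd' : ¬ (p' : ℤ) ∣ d)
    (hb3 : ¬ (3 : ℤ) ∣ b) (hby : (3 : ℤ) ∣ y - b) (hm8 : pr P % 8 = 1) :
    ∃ e b' y' : ℤ, (e = 1 ∨ e = -1) ∧ (p : ℤ) * p' * (e * y') = y * c - b * d ∧
      9 * (pr P : ℤ) = b' ^ 2 + 14 * y' ^ 2 ∧ b' % 4 = 1 ∧ ¬ (3 : ℤ) ∣ b' ∧ (3 : ℤ) ∣ y' - b' ∧
      (p : ℤ) ∣ b * y' + b' * y ∧ (p' : ℤ) ∣ b * y' + b' * y ∧
      ∀ r ∈ P, r ≠ p → r ≠ p' → (r : ℤ) ∣ b * y' - b' * y := by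
  have hpp := Nat.prime_iff_prime_int.1 (gd_prime hP hp).1
  have hpp' := Nat.prime_iff_prime_int.1 (gd_prime hP hp').1
  obtain ⟨N, hN⟩ : ∃ N : ℤ, N = (p : ℤ) * p' := ⟨_, rfl⟩
  have hN0 : (0 : ℤ) < N := by
    rw [hN]
    have a1 := (gd_prime hP hp).1.pos
    have a2 := (gd_prime hP hp').1.pos
    exact_mod_cast Nat.mul_pos a1 a2
  have hN3 : ¬ (3 : ℤ) ∣ N := by
    rw [hN]
    intro h
    rcases Int.prime_three.dvd_or_dvd h with h | h
    · have h5 : 3 ∣ p := by exact_mod_cast h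
      exact (gd_prime hP hp).2.2.2.1
        ((Nat.prime_dvd_prime_iff_eq Nat.prime_three (gd_prime hP hp).1).1 h5).symm
    · have h5 : 3 ∣ p' := by exact_mod_cast h
      exact (gd_prime hP hp').2.2.2.1
        ((Nat.prime_dvd_prime_iff_eq Nat.prime_three (gd_prime hP hp').1).1 h5).symm
  rw [← hN] at hcd hdiv
  obtain ⟨y', hy'⟩ := hdiv
  have hid : (b * c + 14 * y * d) ^ 2 + 14 * (y * c - b * d) ^ 2 = 9 * (pr P : ℤ) * N ^ 2 := by
    rw [hq, ← hcd]; ring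
  have h1 : N ^ 2 ∣ (b * c + 14 * y * d) ^ 2 := by
    refine ⟨9 * (pr P : ℤ) - 14 * y' ^ 2, ?_⟩
    rw [hy'] at hid
    linear_combination hid
  obtain ⟨b', hb'⟩ := (Int.pow_dvd_pow_iff two_ne_zero).1 h1
  have hn : 9 * (pr P : ℤ) = b' ^ 2 + 14 * y' ^ 2 := by
    rw [hy', hb'] at hid
    have : N ^ 2 * (9 * (pr P : ℤ)) = N ^ 2 * (b' ^ 2 + 14 * y' ^ 2) := by
      linear_combination -hid
    exact mul_left_cancel₀ (pow_ne_zero 2 hN0.ne') this
  obtain ⟨n, hn'⟩ : N ∣ (pr P : ℤ) := by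
    rw [hN]
    exact two_dvd hP hp hp' hne (by exact_mod_cast dvd_pr hp) (by exact_mod_cast dvd_pr hp')
  have hdif : b * y' - b' * y = -(9 * n * d) := by
    have : N * (b * y' - b' * y) = N * (-(9 * n * d)) := by
      have e1 : N * (b * y' - b' * y) = b * (N * y') - y * (N * b') := by ring
      rw [e1, ← hy', ← hb']
      have e2 : N * (-(9 * n * d)) = -(9 * (N * n)) * d := by ring
      rw [e2, ← hn', hq]
      ring
    exact mul_left_cancel₀ hN0.ne' this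
  -- `3` does not divide `b'`
  have k3 : ¬ (3 : ℤ) ∣ b' := by
    intro h3
    have e1 : N * b' = b * (c - d) + (15 * b * d + 14 * (y - b) * d) := by rw [← hb']; ring
    have h4 : (3 : ℤ) ∣ b * (c - d) := by
      have : b * (c - d) = N * b' - (3 * (5 * b * d) + 14 * d * (y - b)) := by
        rw [e1]; ring
      rw [this]
      exact dvd_sub (Dvd.dvd.mul_left h3 _) (dvd_add (Dvd.intro _ rfl) (Dvd.dvd.mul_left hby _))
    rcases Int.prime_three.dvd_or_dvd h4 with h5 | h5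
    · exact hb3 h5
    · obtain ⟨k, hk⟩ := h5
      have hc : c = d + 3 * k := by linarith
      rw [hc] at hcd
      have h6 : (3 : ℤ) ∣ N ^ 2 := by
        refine ⟨5 * d ^ 2 + 2 * d * k + 3 * k ^ 2, ?_⟩
        linear_combination -hcd
      exact hN3 (Int.prime_three.dvd_of_dvd_pow h6)
  have k3' : (3 : ℤ) ∣ y' - b' := by
    have h4 : (3 : ℤ) ∣ N * (y' - b') := by
      have : N * (y' - b') = (y - b) * c - 14 * d * (y - b) - 3 * (5 * b * d) := by
        have e1 : N * (y' - b') = N * y' - N * b' := by ring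
        rw [e1, ← hy', ← hb']; ring
      rw [this]
      exact dvd_sub (dvd_sub (Dvd.dvd.mul_right hby _) (Dvd.dvd.mul_left hby _)) (Dvd.intro _ rfl)
    exact (Int.prime_three.dvd_or_dvd h4).resolve_left hN3
  have kp : ∀ r : ℕ, r ∈ P → (r : ℤ) ∣ N → ¬ (r : ℤ) ∣ d → (r : ℤ) ∣ b * y' + b' * y := by
    intro r hr hrN hrd
    have hrr := Nat.prime_iff_prime_int.1 (gd_prime hP hr).1
    have h4 : (r : ℤ) ∣ (b * y' + b' * y) * (b * y' - b' * y) := by
      have : (b * y' + b' * y) * (b * y' - b' * y) = (pr P : ℤ) * (9 * (y' ^ 2 - y ^ 2)) := by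
        linear_combination -(y' ^ 2) * hq + y ^ 2 * hn
      rw [this]
      exact Dvd.dvd.mul_right (by exact_mod_cast dvd_pr hr) _
    rcases hrr.dvd_or_dvd h4 with h5 | h5
    · exact h5
    · exfalso
      rw [hdif, dvd_neg] at h5
      rcases hrr.dvd_or_dvd h5 with h6 | h6
      · apply sq_not hP hr
        obtain ⟨k, hk⟩ := h6
        obtain ⟨l, hl⟩ := hrN
        refine ⟨k * l, ?_⟩
        rw [hn', hl]
        linear_combination (r : ℤ) * l * hk
      · exact hrd h6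
  have kr : ∀ r ∈ P, r ≠ p → r ≠ p' → (r : ℤ) ∣ b * y' - b' * y := by
    intro r hr hrp hrp'
    rw [hdif, dvd_neg]
    have hrr := Nat.prime_iff_prime_int.1 (gd_prime hP hr).1
    have h4 : (r : ℤ) ∣ N * n := by rw [← hn']; exact_mod_cast dvd_pr hr
    rcases hrr.dvd_or_dvd h4 with h5 | h5
    · exfalso
      rw [hN] at h5
      rcases hrr.dvd_or_dvd h5 with h6 | h6
      · exact hrp ((Nat.prime_dvd_prime_iff_eq (gd_prime hP hr).1 (gd_prime hP hp).1).1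
          (by exact_mod_cast h6))
      · exact hrp' ((Nat.prime_dvd_prime_iff_eq (gd_prime hP hr).1 (gd_prime hP hp').1).1
          (by exact_mod_cast h6))
    · exact Dvd.dvd.mul_right (Dvd.dvd.mul_left h5 _) _
  have hpN : (p : ℤ) ∣ N := by rw [hN]; exact Dvd.intro _ rfl
  have hpN' : (p' : ℤ) ∣ N := by rw [hN]; exact Dvd.intro_left _ rfl
  -- the sign
  have hb'2 : b' % 2 = 1 := by
    by_contra hc
    obtain ⟨k, hk⟩ : ∃ k, b' = 2 * k := ⟨b' / 2, by omega⟩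
    rw [hk] at hn
    have : (9 : ℤ) * pr P = 2 * (2 * k ^ 2 + 7 * y' ^ 2) := by rw [hn]; ring
    omega
  obtain ⟨e, he, hb4⟩ : ∃ e : ℤ, (e = 1 ∨ e = -1) ∧ (e * b') % 4 = 1 := by
    have : b' % 4 = 1 ∨ b' % 4 = 3 := by omega
    rcases this with h | h
    · exact ⟨1, Or.inl rfl, by omega⟩
    · exact ⟨-1, Or.inr rfl, by omega⟩
  have he2 : e ^ 2 = 1 := by rcases he with rfl | rfl <;> norm_num
  refine ⟨e, e * b', e * y', he, ?_, ?_, hb4, ?_, ?_, ?_, ?_, ?_⟩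
  · rw [← hN, hy']
    linear_combination N * y' * he2
  · linear_combination hn - (b' ^ 2 + 14 * y' ^ 2) * he2
  · intro h5
    apply k3
    have : b' = e * (e * b') := by linear_combination -b' * he2
    rw [this]
    exact Dvd.dvd.mul_left h5 _
  · have : e * y' - e * b' = e * (y' - b') := by ring
    rw [this]
    exact Dvd.dvd.mul_left k3' _
  · have : b * (e * y') + e * b' * y = e * (b * y' + b' * y) := by ring
    rw [this]
    exact Dvd.dvd.mul_left (kp p hp hpN hpd) _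
  · have : b * (e * y') + e * b' * y = e * (b * y' + b' * y) := by ring
    rw [this]
    exact Dvd.dvd.mul_left (kp p' hp' hpN' hpd') _
  · intro r hr h1 h2
    have : b * (e * y') - e * b' * y = e * (b * y' - b' * y) := by ring
    rw [this]
    exact Dvd.dvd.mul_left (kr r hr h1 h2) _

include hP hq in
/-- the character at the split primes -/
theorem flip_char {r : ℕ} (hr : r ∈ P) (h8 : r % 8 = 1) (hrp : r ≠ p) (hrp' : r ≠ p')
    (hpr : p.Prime) (hpr' : p'.Prime) {b' y' s k w e : ℤ}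
    (hn : 9 * (pr P : ℤ) = b' ^ 2 + 14 * y' ^ 2) (he : e = 1 ∨ e = -1)
    (hs : s = 1 ∨ s = 2) (hw : s * ((p : ℤ) * p' * (e * y') * y) = w ^ 2 - 9 * (pr P : ℤ) * k) :
    jacobiSym y' r = jacobiSym (p * p' : ℕ) r * jacobiSym y r := by
  have hrP := (gd_prime hP hr).1
  have hrr := Nat.prime_iff_prime_int.1 hrP
  have hodd : Odd r := Nat.odd_iff.2 (by omega)
  have hs1 : jacobiSym s r = 1 := by
    rcases hs with rfl | rfl
    · exact jacobiSym.one_left r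
    · rw [jacobiSym.at_two hodd, ZMod.χ₈_nat_eq_if_mod_eight]
      simp [h8]
      omega
  have he1 : jacobiSym e r = 1 := by
    rcases he with rfl | rfl
    · exact jacobiSym.one_left r
    · exact jac_neg_one (by omega)
  have hN : ¬ (r : ℤ) ∣ (p : ℤ) * p' := by
    intro h
    rcases hrr.dvd_or_dvd h with h | h
    · exact hrp ((Nat.prime_dvd_prime_iff_eq hrP hpr).1 (by exact_mod_cast h))
    · exact hrp' ((Nat.prime_dvd_prime_iff_eq hrP hpr').1 (by exact_mod_cast h))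
  have hy : ¬ (r : ℤ) ∣ y := nsd hP hr hq
  have hy' : ¬ (r : ℤ) ∣ y' := nsd hP hr hn
  have hrm : (r : ℤ) ∣ 9 * (pr P : ℤ) * k :=
    Dvd.dvd.mul_right (Dvd.dvd.mul_left (by exact_mod_cast dvd_pr hr) _) _
  have hsr : ¬ (r : ℤ) ∣ s := fun h => by
    rw [jac_zero hrP h] at hs1; norm_num at hs1
  have her : ¬ (r : ℤ) ∣ e := fun h => by
    rw [jac_zero hrP h] at he1; norm_num at he1
  have hwr : ¬ (r : ℤ) ∣ w := by
    intro h
    have h1 : (r : ℤ) ∣ s * ((p : ℤ) * p' * (e * y') * y) := by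
      rw [hw]; exact dvd_sub (dvd_pow h two_ne_zero) hrm
    rcases hrr.dvd_or_dvd h1 with h2 | h2
    · exact hsr h2
    · rcases hrr.dvd_or_dvd h2 with h3 | h3
      · rcases hrr.dvd_or_dvd h3 with h4 | h4
        · exact hN h4
        · rcases hrr.dvd_or_dvd h4 with h5 | h5
          · exact her h5
          · exact hy' h5
      · exact hy h3
  have h1 : jacobiSym (s * ((p : ℤ) * p' * (e * y') * y)) r = jacobiSym (w * w) r := by
    apply jac_congr
    have : s * ((p : ℤ) * p' * (e * y') * y) - w * w = -(9 * (pr P : ℤ) * k) := by rw [hw]; ring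
    rw [this]
    exact hrm.neg_right
  have e0 : ((p * p' : ℕ) : ℤ) = (p : ℤ) * p' := by push_cast; ring
  rw [e0]
  rw [jacobiSym.mul_left, jacobiSym.mul_left, jacobiSym.mul_left ((p : ℤ) * p'),
    jacobiSym.mul_left e, jacobiSym.mul_left w, jac_sq hrP hwr, hs1, he1, one_mul, one_mul] at h1
  have e1 := jac_sq hrP hN
  have e2 := jac_sq hrP hy
  have e3 : jacobiSym y' r = jacobiSym y' r *
      (jacobiSym ((p : ℤ) * p') r * jacobiSym ((p : ℤ) * p') r) *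
      (jacobiSym y r * jacobiSym y r) := by rw [e1, e2]; ring
  rw [e3]
  linear_combination (jacobiSym ((p : ℤ) * p') r * jacobiSym y r) * h1

end flip

theorem t_SOLB2 : S_SOLB2 := by
  intro P hG p hpi p' hpi' hne q hqS
  have hP := hG.1
  obtain ⟨hp, hNp⟩ := mem_inr hP hpi
  obtain ⟨hp', hNp'⟩ := mem_inr hP hpi'
  obtain ⟨b, y⟩ := q
  obtain ⟨hq, hb4, hb3, hby⟩ := hqS
  simp only at hq hb4 hb3 hby ⊢
  have h8 := gd_mod8 hG
  have hpp := Nat.prime_iff_prime_int.1 hNp.1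
  have hpp' := Nat.prime_iff_prime_int.1 hNp'.1
  obtain ⟨⟨g, f, h1⟩, ⟨h, k, h2⟩, -⟩ := nn_rep hNp hNp'
  -- the primes do not divide the coordinates
  have hsqN : ∀ r : ℕ, r ∈ P → ∀ x z : ℤ, ∀ α β : ℤ, (p : ℤ) * p' = α * x ^ 2 + β * z ^ 2 →
      ((r : ℤ) = p ∨ (r : ℤ) = p') → ¬ (r : ℤ) ∣ α → ¬ (r : ℤ) ∣ β → ¬ (r : ℤ) ∣ x ∧ ¬ (r : ℤ) ∣ z := by
    intro r hr x z α β hN hor hα hβ
    have hrP := (gd_prime hP hr).1
    have hrr := Nat.prime_iff_prime_int.1 hrP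
    have hrN : (r : ℤ) ∣ (p : ℤ) * p' := by
      rcases hor with h | h
      · rw [h]; exact Dvd.intro _ rfl
      · rw [h]; exact Dvd.intro_left _ rfl
    have hnot : ¬ (r : ℤ) ^ 2 ∣ (p : ℤ) * p' := by
      intro h3
      rcases hor with h | h
      · rw [h, pow_two] at h3
        have h4 := Int.dvd_of_mul_dvd_mul_left hpp.ne_zero h3
        exact hne ((Nat.prime_dvd_prime_iff_eq hNp.1 hNp'.1).1 (by exact_mod_cast h4))
      · rw [h, pow_two] at h3
        have h4 := Int.dvd_of_mul_dvd_mul_right hpp'.ne_zero h3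
        exact hne ((Nat.prime_dvd_prime_iff_eq hNp'.1 hNp.1).1 (by exact_mod_cast h4)).symm
    constructor
    · intro hx
      have hz : (r : ℤ) ∣ z := by
        have h3 : (r : ℤ) ∣ β * z ^ 2 := by
          have : β * z ^ 2 = (p : ℤ) * p' - α * x ^ 2 := by rw [hN]; ring
          rw [this]
          exact dvd_sub hrN (Dvd.dvd.mul_left (dvd_pow hx two_ne_zero) _)
        exact hrr.dvd_of_dvd_pow ((hrr.dvd_or_dvd h3).resolve_left hβ)
      apply hnot
      rw [hN]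
      exact dvd_add (Dvd.dvd.mul_left (pow_dvd_pow_of_dvd hx 2) _)
        (Dvd.dvd.mul_left (pow_dvd_pow_of_dvd hz 2) _)
    · intro hz
      have hx : (r : ℤ) ∣ x := by
        have h3 : (r : ℤ) ∣ α * x ^ 2 := by
          have : α * x ^ 2 = (p : ℤ) * p' - β * z ^ 2 := by rw [hN]; ring
          rw [this]
          exact dvd_sub hrN (Dvd.dvd.mul_left (dvd_pow hz two_ne_zero) _)
        exact hrr.dvd_of_dvd_pow ((hrr.dvd_or_dvd h3).resolve_left hα)
      apply hnot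
      rw [hN]
      exact dvd_add (Dvd.dvd.mul_left (pow_dvd_pow_of_dvd hx 2) _)
        (Dvd.dvd.mul_left (pow_dvd_pow_of_dvd hz 2) _)
  have hsmall : ∀ r : ℕ, r ∈ P → ∀ n : ℕ, n.Prime → (n = 2 ∨ n = 7) → ¬ (r : ℤ) ∣ (n : ℤ) := by
    intro r hr n hn hor h3
    obtain ⟨a1, -, a2, -, a3⟩ := gd_prime hP hr
    have := (Nat.prime_dvd_prime_iff_eq a1 hn).1 (by exact_mod_cast h3)
    rcases hor with h | h
    · exact a2 (this.trans h)
    · exact a3 (this.trans h)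
  have hs2 : ∀ r : ℕ, r ∈ P → ¬ (r : ℤ) ∣ 2 := fun r hr => by
    exact_mod_cast hsmall r hr 2 Nat.prime_two (Or.inl rfl)
  have hs7 : ∀ r : ℕ, r ∈ P → ¬ (r : ℤ) ∣ 7 := fun r hr => by
    exact_mod_cast hsmall r hr 7 (by norm_num) (Or.inr rfl)
  have hs14 : ∀ r : ℕ, r ∈ P → ¬ (r : ℤ) ∣ 14 := fun r hr h3 => by
    have hrr := Nat.prime_iff_prime_int.1 (gd_prime hP hr).1
    have e : (14 : ℤ) = 2 * 7 := by norm_num
    rw [e] at h3
    rcases hrr.dvd_or_dvd h3 with h4 | h4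
    · exact hs2 r hr h4
    · exact hs7 r hr h4
  have hs1 : ∀ r : ℕ, r ∈ P → ¬ (r : ℤ) ∣ 1 := fun r hr h3 => by
    have hrr := Nat.prime_iff_prime_int.1 (gd_prime hP hr).1
    exact hrr.not_isUnit (isUnit_of_dvd_one h3)
  have hd3 : ∀ r : ℕ, r ∈ P → ∀ u v : ℤ, ¬ (r : ℤ) ∣ u → ¬ (r : ℤ) ∣ v → ¬ (r : ℤ) ∣ 2 * u * v := by
    intro r hr u v hu hv h3
    have hrr := Nat.prime_iff_prime_int.1 (gd_prime hP hr).1
    rcases hrr.dvd_or_dvd h3 with h4 | h4
    · rcases hrr.dvd_or_dvd h4 with h5 | h5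
      · exact hs2 r hr h5
      · exact hu h5
    · exact hv h4
  have hym : ∀ Z : ℤ, (p : ℤ) * p' ∣ y * Z → (p : ℤ) * p' ∣ Z := by
    intro Z h3
    refine two_dvd hP hp hp' hne ?_ ?_
    · exact (hpp.dvd_or_dvd ((Dvd.intro _ rfl : (p : ℤ) ∣ (p : ℤ) * p').trans h3)).resolve_left
        (nsd hP hp hq)
    · exact (hpp'.dvd_or_dvd ((Dvd.intro_left _ rfl : (p' : ℤ) ∣ (p : ℤ) * p').trans h3)).resolve_left
        (nsd hP hp' hq)
  have hNm : (p : ℤ) * p' ∣ (pr P : ℤ) :=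
    two_dvd hP hp hp' hne (by exact_mod_cast dvd_pr hp) (by exact_mod_cast dvd_pr hp')
  have hspl : ∀ r ∈ spl P, r ∈ P ∧ r % 8 = 1 ∧ r ≠ p ∧ r ≠ p' := by
    intro r hr
    obtain ⟨a1, a2⟩ := mem_filter.1 hr
    have b1 := hNp.2.1
    have b2 := hNp'.2.1
    exact ⟨a1, a2, by rintro rfl; omega, by rintro rfl; omega⟩
  rcases good hP hp hp' hne hq h1 h2 with ⟨f, h1, hd⟩ | ⟨k, h2, hd⟩
  · have hcd : (g ^ 2 - 14 * f ^ 2) ^ 2 + 14 * (2 * f * g) ^ 2 = ((p : ℤ) * p') ^ 2 := by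
      rw [h1]; ring
    have hdiv : (p : ℤ) * p' ∣ y * (g ^ 2 - 14 * f ^ 2) - b * (2 * f * g) := by
      apply hym
      have e : y * (y * (g ^ 2 - 14 * f ^ 2) - b * (2 * f * g)) =
          (y * g - b * f) * (y * g - b * f) - (pr P : ℤ) * (9 * f ^ 2) := by
        linear_combination f ^ 2 * hq
      rw [e]
      exact dvd_sub (Dvd.dvd.mul_right hd _) (Dvd.dvd.mul_right hNm _)
    have n1 := hsqN p hp g f 1 14 (by rw [h1]; ring) (Or.inl rfl) (hs1 p hp) (hs14 p hp)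
    have n2 := hsqN p' hp' g f 1 14 (by rw [h1]; ring) (Or.inr rfl) (hs1 p' hp') (hs14 p' hp')
    obtain ⟨e, b', y', he, e2, e3, e4, e5, e6, e7, e8, e9⟩ := flip_ex hP hp hp' hne hq hcd hdiv
      (hd3 p hp f g n1.2 n1.1) (hd3 p' hp' f g n2.2 n2.1) hb3 hby h8
    refine ⟨(b', y'), ⟨e3, e4, e5, e6⟩, e7, e8, e9, fun r hr => ?_⟩
    obtain ⟨a1, a2, a3, a4⟩ := hspl r hr
    refine flip_char hP hq a1 a2 a3 a4 hNp.1 hNp'.1 (s := 1) (k := f ^ 2) (w := y * g - b * f)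
      (e := e) e3 he (Or.inl rfl) ?_
    rw [e2]
    linear_combination f ^ 2 * hq
  · have hcd : (2 * h ^ 2 - 7 * k ^ 2) ^ 2 + 14 * (2 * h * k) ^ 2 = ((p : ℤ) * p') ^ 2 := by
      rw [h2]; ring
    have hdiv : (p : ℤ) * p' ∣ y * (2 * h ^ 2 - 7 * k ^ 2) - b * (2 * h * k) := by
      have h3 : (p : ℤ) * p' ∣ 2 * (y * (2 * h ^ 2 - 7 * k ^ 2) - b * (2 * h * k)) := by
        apply hym
        have e : y * (2 * (y * (2 * h ^ 2 - 7 * k ^ 2) - b * (2 * h * k))) =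
            (2 * h * y - b * k) * (2 * h * y - b * k) - (pr P : ℤ) * (9 * k ^ 2) := by
          linear_combination k ^ 2 * hq
        rw [e]
        exact dvd_sub (Dvd.dvd.mul_right hd _) (Dvd.dvd.mul_right hNm _)
      refine two_dvd hP hp hp' hne ?_ ?_
      · exact (hpp.dvd_or_dvd ((Dvd.intro _ rfl : (p : ℤ) ∣ (p : ℤ) * p').trans h3)).resolve_left
          (hs2 p hp)
      · exact (hpp'.dvd_or_dvd
          ((Dvd.intro_left _ rfl : (p' : ℤ) ∣ (p : ℤ) * p').trans h3)).resolve_left (hs2 p' hp')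
    have n1 := hsqN p hp h k 2 7 (by rw [h2]) (Or.inl rfl) (hs2 p hp) (hs7 p hp)
    have n2 := hsqN p' hp' h k 2 7 (by rw [h2]) (Or.inr rfl) (hs2 p' hp') (hs7 p' hp')
    obtain ⟨e, b', y', he, e2, e3, e4, e5, e6, e7, e8, e9⟩ := flip_ex hP hp hp' hne hq hcd hdiv
      (hd3 p hp h k n1.1 n1.2) (hd3 p' hp' h k n2.1 n2.2) hb3 hby h8
    refine ⟨(b', y'), ⟨e3, e4, e5, e6⟩, e7, e8, e9, fun r hr => ?_⟩
    obtain ⟨a1, a2, a3, a4⟩ := hspl r hr
    refine flip_char hP hq a1 a2 a3 a4 hNp.1 hNp'.1 (s := 2) (k := k ^ 2) (w := 2 * h * y - b * k)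
      (e := e) e3 he (Or.inr rfl) ?_
    rw [e2]
    linear_combination k ^ 2 * hq

end Pool.Agent.Z421
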